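import Pool.Agent.helper24.Three

/-!
# The signed `[0,s]`-critical number of `ℤ/n` for odd `n` divisible by `3` and `s ≥ 3`

We answer Q1: `χ_±(ℤ_n, [0,s]) = v_±(n, s) + 1 = n / 3 + 1`.

Idea: `[0,s]_± A = sB` with `B = A ∪ (-A) ∪ {0}`.  It is enough to treat `s = 3`.  The lemma
`three_mul_card_le` (in the imported helper file) shows that a symmetric set `B ∋ 0` in a finite
abelian group of odd order with `B + B + B ≠ G` has at most `#G / 3` elements.
-/

set_option autoImplicit false

open Finset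
open scoped Pointwise

namespace Pool.Agent.Results.MP_33eb55_co.OddDivThree

/-- The `h`-fold signed sumset `h_± A` of `A ⊆ ℤ/n`: all sums `∑_{a ∈ A} c a • a` with integer
coefficients such that `∑_{a ∈ A} |c a| = h`. -/
def signedSumset (n h : ℕ) (A : Finset (ZMod n)) : Set (ZMod n) :=
  {x | ∃ c : ZMod n → ℤ, ∑ a ∈ A, |c a| = (h : ℤ) ∧ ∑ a ∈ A, c a • a = x}

/-- `[0,s]_± A`, the union of the signed sumsets `h_± A` for `0 ≤ h ≤ s`. -/
def signedIntervalSumset (n s : ℕ) (A : Finset (ZMod n)) : Set (ZMod n) :=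
  ⋃ h ∈ Set.Icc 0 s, signedSumset n h A

/-- The signed `[0,s]`-critical number `χ_±(ℤ/n, [0,s])`: the least `m` such that every
`m`-element subset `A` of `ℤ/n` satisfies `[0,s]_± A = ℤ/n`. -/
noncomputable def signedCriticalNumber (n s : ℕ) : ℕ :=
  sInf {m : ℕ | ∀ A : Finset (ZMod n), A.card = m → signedIntervalSumset n s A = Set.univ}

/-- `v_±(n,h) = max { (2 ⌊(d - 2) / (2h)⌋ + 1) * (n / d) : d ∣ n }` (integer floor). -/
noncomputable def vSigned (n h : ℕ) : ℤ :=
  sSup {x : ℤ | ∃ d ∈ n.divisors,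
    x = (2 * ⌊(((d : ℚ) - 2) / (2 * (h : ℚ)))⌋ + 1) * ((n / d : ℕ) : ℤ)}

/-- A sum of three elements of `A ∪ (-A) ∪ {0}` lies in `[0,s]_± A` when `s ≥ 3`. -/
lemma mem_signedIntervalSumset {n s : ℕ} (hs : 3 ≤ s) (A : Finset (ZMod n))
    {e : Fin 3 → ℤ} {a : Fin 3 → ZMod n} (he : ∀ i, |e i| ≤ 1) (ha : ∀ i, a i ∈ A) :
    ∑ i, e i • a i ∈ signedIntervalSumset n s A := by
  classical
  set c : ZMod n → ℤ := fun x => ∑ i, if a i = x then e i else 0 with hc
  have hsum : ∑ x ∈ A, c x • x = ∑ i, e i • a i := by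
    simp only [hc, Finset.sum_smul]
    rw [Finset.sum_comm]
    apply Finset.sum_congr rfl
    intro i _
    rw [Finset.sum_eq_single (a i)]
    · simp
    · intro b _ hb
      rw [if_neg (fun h => hb h.symm), zero_smul]
    · intro h
      exact absurd (ha i) h
  have habs : ∑ x ∈ A, |c x| ≤ 3 := by
    calc ∑ x ∈ A, |c x| ≤ ∑ x ∈ A, ∑ i, |if a i = x then e i else 0| := by
          apply Finset.sum_le_sum
          intro x _
          exact Finset.abs_sum_le_sum_abs _ _
      _ = ∑ i, ∑ x ∈ A, |if a i = x then e i else 0| := Finset.sum_comm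
      _ = ∑ i, |e i| := by
          apply Finset.sum_congr rfl
          intro i _
          rw [Finset.sum_eq_single (a i)]
          · simp
          · intro b _ hb
            rw [if_neg (fun h => hb h.symm), abs_zero]
          · intro h
            exact absurd (ha i) h
      _ ≤ ∑ _i : Fin 3, (1 : ℤ) := Finset.sum_le_sum (fun i _ => he i)
      _ = 3 := by simp
  have hnn : 0 ≤ ∑ x ∈ A, |c x| := Finset.sum_nonneg (fun x _ => abs_nonneg _)
  unfold signedIntervalSumset
  rw [Set.mem_iUnion₂]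
  refine ⟨(∑ x ∈ A, |c x|).toNat, ⟨Nat.zero_le _, ?_⟩, c, ?_, hsum⟩
  · omega
  · rw [Int.toNat_of_nonneg hnn]

/-- The upper bound. -/
lemma eq_univ_of_card {n s : ℕ} (hn : Odd n) (hs : 3 ≤ s) (A : Finset (ZMod n))
    (hA : n < 3 * A.card) : signedIntervalSumset n s A = Set.univ := by
  classical
  haveI : NeZero n := ⟨by rintro rfl; exact absurd hn (by decide)⟩
  set B : Finset (ZMod n) := insert 0 (A ∪ -A) with hB
  have h0 : (0 : ZMod n) ∈ B := Finset.mem_insert_self _ _
  have hneg : ∀ x ∈ B, -x ∈ B := by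
    intro x hx
    rw [hB, Finset.mem_insert, Finset.mem_union, Finset.mem_neg'] at hx ⊢
    rcases hx with rfl | hx | hx
    · left; exact neg_zero
    · right; right; rwa [neg_neg]
    · right; left; exact hx
  have hAB : A ⊆ B := by
    intro x hx
    rw [hB, Finset.mem_insert, Finset.mem_union]
    right; left; exact hx
  have hodd : Odd (Fintype.card (ZMod n)) := by rwa [ZMod.card]
  have h3 : B + B + B = univ := by
    by_contra hcon
    have h1 := helper24.three_mul_card_le hodd B h0 hneg hcon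
    rw [ZMod.card] at h1
    have h2 := Finset.card_le_card hAB
    omega
  have hAne : A.Nonempty := by
    rw [← Finset.card_pos]; omega
  obtain ⟨a₀, ha₀⟩ := hAne
  -- each element of `B` is `e • a` with `|e| ≤ 1`, `a ∈ A`
  have hrep : ∀ x ∈ B, ∃ e : ℤ, ∃ a ∈ A, |e| ≤ 1 ∧ e • a = x := by
    intro x hx
    rw [hB, Finset.mem_insert, Finset.mem_union, Finset.mem_neg'] at hx
    rcases hx with rfl | hx | hx
    · exact ⟨0, a₀, ha₀, by norm_num, zero_smul _ _⟩
    · exact ⟨1, x, hx, by norm_num, one_smul _ _⟩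
    · exact ⟨-1, -x, hx, by norm_num, by rw [neg_smul, one_smul, neg_neg]⟩
  apply Set.eq_univ_of_forall
  intro g
  have hg : g ∈ B + B + B := by rw [h3]; exact Finset.mem_univ g
  rw [Finset.mem_add] at hg
  obtain ⟨t, ht, z, hz, rfl⟩ := hg
  rw [Finset.mem_add] at ht
  obtain ⟨x, hx, y, hy, rfl⟩ := ht
  obtain ⟨e₁, a₁, ha₁, he₁, rfl⟩ := hrep x hx
  obtain ⟨e₂, a₂, ha₂, he₂, rfl⟩ := hrep y hy
  obtain ⟨e₃, a₃, ha₃, he₃, rfl⟩ := hrep z hz
  have := mem_signedIntervalSumset hs A (e := ![e₁, e₂, e₃]) (a := ![a₁, a₂, a₃])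
    (by intro i; fin_cases i <;> assumption) (by intro i; fin_cases i <;> assumption)
  rw [Fin.sum_univ_three] at this
  exact this

/-- The lower bound: subsets of the subgroup of index `3`. -/
lemma exists_not_univ {n s m : ℕ} (hn : Odd n) (h3 : 3 ∣ n) (hm : m ≤ n / 3) :
    ∃ A : Finset (ZMod n), A.card = m ∧ signedIntervalSumset n s A ≠ Set.univ := by
  classical
  haveI : NeZero n := ⟨by rintro rfl; exact absurd hn (by decide)⟩
  obtain ⟨k, rfl⟩ := h3
  rw [Nat.mul_div_cancel_left k (by norm_num)] at hm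
  -- the kernel of the reduction modulo `3`
  set φ : ZMod (3 * k) →+* ZMod 3 := ZMod.castHom (Dvd.intro k rfl) (ZMod 3) with hφ
  set K : Finset (ZMod (3 * k)) := univ.filter (fun x => φ x = 0) with hK
  have hkpos : 0 < k := by
    rcases Nat.eq_zero_or_pos k with rfl | h
    · exact absurd hn (by decide)
    · exact h
  have hKcard : K.card = k := by
    have h1 : ∀ y : ZMod 3, (univ.filter (fun x => φ x = y)).card = K.card := by
      intro y
      obtain ⟨x₀, hx₀⟩ : ∃ x₀, φ x₀ = y := ZMod.castHom_surjective _ y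
      symm
      apply Finset.card_bij (fun x _ => x + x₀)
      · intro x hx
        rw [hK, Finset.mem_filter] at hx
        rw [Finset.mem_filter]
        exact ⟨Finset.mem_univ _, by rw [map_add, hx.2, hx₀, zero_add]⟩
      · intro a _ b _ hab
        exact add_right_cancel hab
      · intro x hx
        rw [Finset.mem_filter] at hx
        refine ⟨x - x₀, ?_, by ring⟩
        rw [hK, Finset.mem_filter]
        exact ⟨Finset.mem_univ _, by rw [map_sub, hx.2, hx₀, sub_self]⟩
    have h2 : (univ : Finset (ZMod (3 * k))).card =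
        ∑ y : ZMod 3, (univ.filter (fun x => φ x = y)).card :=
      Finset.card_eq_sum_card_fiberwise (fun x _ => Finset.mem_univ (φ x))
    simp only [h1, Finset.card_univ, ZMod.card, Finset.sum_const, smul_eq_mul] at h2
    omega
  obtain ⟨A, hAK, hAm⟩ := Finset.exists_subset_card_eq (show m ≤ K.card by omega)
  refine ⟨A, hAm, ?_⟩
  intro huniv
  have h1 : (1 : ZMod (3 * k)) ∈ signedIntervalSumset (3 * k) s A := by
    rw [huniv]; exact Set.mem_univ _
  unfold signedIntervalSumset at h1
  rw [Set.mem_iUnion₂] at h1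
  obtain ⟨h, _, c, _, hc⟩ := h1
  have h2 : φ 1 = 0 := by
    rw [← hc, map_sum]
    apply Finset.sum_eq_zero
    intro a ha
    have := hAK ha
    rw [hK, Finset.mem_filter] at this
    rw [map_zsmul, this.2, smul_zero]
  rw [map_one] at h2
  exact absurd h2 (by decide)

/-- The exact value of the critical number. -/
lemma criticalNumber_eq {n s : ℕ} (hn : Odd n) (h3 : 3 ∣ n) (hs : 3 ≤ s) :
    signedCriticalNumber n s = n / 3 + 1 := by
  have hleast : IsLeast {m : ℕ | ∀ A : Finset (ZMod n), A.card = m →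
      signedIntervalSumset n s A = Set.univ} (n / 3 + 1) := by
    constructor
    · intro A hA
      apply eq_univ_of_card hn hs
      omega
    · intro m hm
      by_contra hcon
      push Not at hcon
      obtain ⟨A, hA, hne⟩ := exists_not_univ (s := s) (m := m) hn h3 (by omega)
      exact hne (hm A hA)
  exact hleast.csInf_eq

lemma vSigned_eq {n s : ℕ} (hn : Odd n) (h3 : 3 ∣ n) (hs : 3 ≤ s) :
    vSigned n s = ((n / 3 : ℕ) : ℤ) := by
  have hn0 : n ≠ 0 := by rintro rfl; exact absurd hn (by decide)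
  have hgreatest : IsGreatest {x : ℤ | ∃ d ∈ n.divisors,
      x = (2 * ⌊(((d : ℚ) - 2) / (2 * (s : ℚ)))⌋ + 1) * ((n / d : ℕ) : ℤ)}
      ((n / 3 : ℕ) : ℤ) := by
    have hs' : (3 : ℚ) ≤ s := by exact_mod_cast hs
    constructor
    · refine ⟨3, ?_, ?_⟩
      · rw [Nat.mem_divisors]
        exact ⟨h3, hn0⟩
      · have : ⌊(((3 : ℕ) : ℚ) - 2) / (2 * (s : ℚ))⌋ = 0 := by
          rw [Int.floor_eq_zero_iff]
          constructor
          · positivity
          · rw [div_lt_one (by linarith)]
            push_cast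
            linarith
        rw [this]
        ring
    · rintro x ⟨d, hd, rfl⟩
      rw [Nat.mem_divisors] at hd
      obtain ⟨e, he⟩ := hd.1
      have hdpos : 0 < d := by
        rcases Nat.eq_zero_or_pos d with rfl | h
        · rw [zero_mul] at he; exact absurd he hn0
        · exact h
      have hne : n / d = e := by rw [he, Nat.mul_div_cancel_left e hdpos]
      rw [hne]
      have hdodd : Odd d := by rw [he] at hn; exact (Nat.odd_mul.1 hn).1
      -- the key inequality `3 * (2 * f + 1) ≤ d`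
      set f : ℤ := ⌊(((d : ℕ) : ℚ) - 2) / (2 * (s : ℚ))⌋ with hf
      have hkey : 3 * (2 * f + 1) ≤ (d : ℤ) := by
        rcases lt_or_ge f 1 with hf1 | hf1
        · -- `f ≤ 0`
          rcases lt_or_ge f 0 with hf0 | hf0
          · have : (0 : ℤ) ≤ d := by positivity
            linarith
          · have hf00 : f = 0 := by omega
            rw [hf00]
            -- `d ≠ 1` since otherwise `f < 0`
            have hd1 : d ≠ 1 := by
              rintro rfl
              have h1 : f ≤ ((((1 : ℕ) : ℚ)) - 2) / (2 * (s : ℚ)) := Int.floor_le _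
              rw [hf00] at h1
              have h2 : ((((1 : ℕ) : ℚ)) - 2) / (2 * (s : ℚ)) < 0 := by
                apply div_neg_of_neg_of_pos
                · norm_num
                · linarith
              push_cast at h1 h2
              linarith
            obtain ⟨j, hj⟩ := hdodd
            omega
        · have h1 : (f : ℚ) ≤ ((d : ℚ) - 2) / (2 * (s : ℚ)) := Int.floor_le _
          have hfq : (1 : ℚ) ≤ f := by exact_mod_cast hf1
          rw [le_div_iff₀ (by linarith)] at h1
          have h2 : (f : ℚ) * 6 ≤ (d : ℚ) - 2 := by nlinarith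
          have h3' : f * 6 ≤ (d : ℤ) - 2 := by exact_mod_cast h2
          obtain ⟨j, hj⟩ := hdodd
          omega
      have he0 : (0 : ℤ) ≤ e := by positivity
      have h5 : 3 * ((2 * f + 1) * (e : ℤ)) ≤ (n : ℤ) := by
        rw [he]
        push_cast
        nlinarith
      have h6 : ((n / 3 : ℕ) : ℤ) * 3 = n := by
        exact_mod_cast Nat.div_mul_cancel h3
      linarith
  exact hgreatest.csSup_eq

/-- **Q1.** For every odd `n` divisible by `3` and every `s ≥ 3`,
`χ_±(ℤ_n, [0,s]) = v_±(n, s) + 1 = n / 3 + 1`. -/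
theorem result : ∀ n s : ℕ, Odd n → 3 ∣ n → 3 ≤ s →
    (signedCriticalNumber n s : ℤ) = vSigned n s + 1 ∧ vSigned n s + 1 = ((n / 3 : ℕ) : ℤ) + 1 := by
  intro n s hn h3 hs
  rw [criticalNumber_eq hn h3 hs, vSigned_eq hn h3 hs]
  push_cast
  exact ⟨rfl, rfl⟩

end Pool.Agent.Results.MP_33eb55_co.OddDivThree
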